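import Pool.Agent.Q5.GoodTri.Example

set_option autoImplicit false

namespace Pool.Agent.Results.MP_76bba9_al.Rotation

open CategoryTheory Limits Pretriangulated Triangulated Q5.GoodTri

/-- There are a triangulated category and a Verdier good map of exact triangles in it whose rotation
is not Verdier good. -/
theorem result : ∃ (C : Type 1) (_ : Category.{1} C) (_ : HasZeroObject C) (_ : HasShift C ℤ)
    (_ : Preadditive C) (_ : ∀ n : ℤ, (shiftFunctor C n).Additive) (_ : Pretriangulated C)
    (_ : IsTriangulated C) (T T' : Triangle C) (hT : T ∈ distTriang C) (hT' : T' ∈ distTriang C)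
    (φ : T ⟶ T'), IsVerdierGood hT hT' φ ∧
      ¬ IsVerdierGood (rot_of_distTriang T hT) (rot_of_distTriang T' hT') ((rotate C).map φ) := by
  obtain ⟨Z, v, w, hT⟩ := distinguished_cocone_triangle (dg.map uAb)
  obtain ⟨Z', v', w', hT'⟩ := distinguished_cocone_triangle (dg.map gAb)
  obtain ⟨a, c₂, c₃, _, h0, h1⟩ := exists_map hyp hT hT'
  refine ⟨DAb, inferInstance, inferInstance, inferInstance, inferInstance, inferInstance,
    inferInstance, inferInstance, _, _, hT, hT',
    Triangle.homMk _ _ (dg.map uAb) (dg.map gAb) (w ≫ a) rfl c₂ c₃, h1, ?_⟩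
  exact not_verdierGood_rotate hT' hyp.hom a h0 (rot_of_distTriang _ hT) (rot_of_distTriang _ hT')

end Pool.Agent.Results.MP_76bba9_al.Rotation
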